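import Pool.Agent.helper38.VA.Spec

/-!
# Project va: DRT (the element `m`)
-/

set_option autoImplicit false

namespace Pool.Agent.VA

open Matrix Module Pool.Agent.PR Pool.Agent.H48SL

/-- the exponential of a matrix with `X ^ 3 = 0` -/
theorem DRT_exp {n : ℕ} (X : MQ n) (h : X * X * X = 0) :
    IsNilpotent.exp X = 1 + X + (1 / 2 : ℚ) • (X * X) := by
  have h3 : X ^ 3 = 0 := by rw [pow_succ, pow_two, h]
  rw [IsNilpotent.exp_eq_sum h3, Finset.sum_range_succ, Finset.sum_range_succ,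
    Finset.sum_range_succ, Finset.sum_range_zero, zero_add, pow_zero, pow_one, pow_two]
  norm_num [Nat.factorial]

/-- the function `f` -/
theorem DRT_f {n : ℕ} (G G' X : MQ n) (k φ : Fin n → ℚ) (β : ℚ) (hG : G * G' = 1)
    (hfk : φ ⬝ᵥ k = 0) (hX : X * X = β • vecMulVec k φ) (hXk : X *ᵥ k = 0) :
    φ ⬝ᵥ ((G * IsNilpotent.exp X * G') *ᵥ k) = φ ⬝ᵥ ((G * X * G') *ᵥ k) +
      (1 / 2 * ((φ ⬝ᵥ (G *ᵥ k)) * (φ ⬝ᵥ (G' *ᵥ k)))) * β := by
  have h3 : X * X * X = 0 := by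
    rw [mul_assoc, hX, mul_smul_comm, mul_vecMulVec, hXk]
    ext i j
    simp
  have e1 : G * IsNilpotent.exp X * G' = 1 + G * X * G' +
      (1 / 2 * β) • (G * vecMulVec k φ * G') := by
    rw [DRT_exp X h3, hX, mul_add, mul_add, add_mul, add_mul, mul_one, hG, mul_smul_comm,
      smul_mul_assoc, mul_smul_comm, smul_mul_assoc, smul_smul]
  have e2 : (G * vecMulVec k φ * G') *ᵥ k = (φ ⬝ᵥ (G' *ᵥ k)) • (G *ᵥ k) := by
    rw [← mulVec_mulVec, ← mulVec_mulVec, vecMulVec_mulVec, mulVec_smul, op_smul_eq_smul]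
  rw [e1, add_mulVec, add_mulVec, one_mulVec, smul_mulVec, e2, dotProduct_add, dotProduct_add, hfk,
    dotProduct_smul, dotProduct_smul, smul_eq_mul, smul_eq_mul]
  ring

theorem DRT (hDFM : DFM_stmt) (hDIS : DIS_stmt) (hLTA : LTA_stmt) (hLTB : LTB_stmt) : DRT_stmt := by
  rintro n H W b k φ hSI hDT ⟨g, hg, hg1, hg2, X₁, hX₁, hX₁'⟩
  obtain ⟨B, hB, hB0, hBl⟩ := hDFM n W k φ hSI.com hDT
  have hGG : stdM ℚ g * stdM ℚ g⁻¹ = 1 := stdM_mul_inv ℚ g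
  set a : ℚ := 1 / 2 * ((φ ⬝ᵥ (stdM ℚ g *ᵥ k)) * (φ ⬝ᵥ (stdM ℚ g⁻¹ *ᵥ k))) with ha
  have ha0 : a ≠ 0 := mul_ne_zero (by norm_num) (mul_ne_zero hg1 hg2)
  -- the linear form
  let ℓ : MQ n →ₗ[ℚ] ℚ :=
    { toFun := fun X => φ ⬝ᵥ ((stdM ℚ g * X * stdM ℚ g⁻¹) *ᵥ k)
      map_add' := fun X Y => by
        rw [mul_add, add_mul, add_mulVec, dotProduct_add]
      map_smul' := fun c X => by
        rw [mul_smul_comm, smul_mul_assoc, smul_mulVec, dotProduct_smul]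
        rfl }
  have hℓ : ∀ X, ℓ X = φ ⬝ᵥ ((stdM ℚ g * X * stdM ℚ g⁻¹) *ᵥ k) := fun X => rfl
  have hf : ∀ X ∈ W, φ ⬝ᵥ ((stdM ℚ g * IsNilpotent.exp X * stdM ℚ g⁻¹) *ᵥ k) =
      ℓ X + a * B X X := fun X hX =>
    DRT_f _ _ X k φ (B X X) hGG hDT.fk (hB X hX X hX).1 (hDT.Xk X hX)
  obtain ⟨X₀, hX₀, hl⟩ := hBl ((1 / (2 * a)) • ℓ)
  have hl' : ∀ X ∈ W, ℓ X = 2 * a * B X X₀ := by
    intro X hX
    rw [hl X hX, LinearMap.smul_apply, smul_eq_mul]
    field_simp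
  have hX₀0 : X₀ ≠ 0 := by
    rintro rfl
    apply hX₁'
    rw [← hℓ, hl' X₁ hX₁, map_zero, mul_zero]
  -- `cj (b ^ 2)` preserves the form
  have hkφ : vecMulVec k φ ≠ 0 := by
    intro h
    obtain ⟨i, hi⟩ := Function.ne_iff.1 hDT.k0
    obtain ⟨j, hj⟩ := Function.ne_iff.1 hDT.f0
    have h1 := congrFun (congrFun h i) j
    rw [vecMulVec_apply, Matrix.zero_apply] at h1
    exact (mul_ne_zero hi hj) h1
  have hst : ∀ i : ℕ, ∀ X ∈ W, cj (b ^ i) X ∈ W := by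
    intro i
    induction i with
    | zero =>
      intro X hX
      rw [pow_zero, cj_one]
      exact hX
    | succ i ih =>
      intro X hX
      rw [pow_succ, cj_mul]
      exact ih _ (hSI.sta X hX)
  have hB2 : ∀ X ∈ W, B (cj (b ^ 2) X) (cj (b ^ 2) X) = B X X := by
    intro X hX
    have h1 := hDIS n H W b k φ hSI hDT X hX
    rw [(hB X hX X hX).1, (hB _ (hst 2 X hX) _ (hst 2 X hX)).1, ← sub_eq_zero, ← sub_smul] at h1
    exact sub_eq_zero.1 ((smul_eq_zero.1 h1).resolve_right hkφ)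
  have hBi : ∀ i : ℕ, B (cj ((b ^ 2) ^ i) X₀) (cj ((b ^ 2) ^ i) X₀) = B X₀ X₀ := by
    intro i
    induction i with
    | zero => rw [pow_zero, cj_one]; rfl
    | succ i ih =>
      rw [pow_succ', cj_mul, hB2 _ (by rw [← pow_mul]; exact hst _ X₀ hX₀), ih]
  -- the element `X`
  obtain ⟨D, hD, hD'⟩ := hLTA n H W hSI.nil hSI.com hSI.log
  obtain ⟨j, hj, hj'⟩ := hLTB n (b ^ 2) X₀ D hD
  have hjX := hj' 1
  rw [mul_one] at hjX
  set X : MQ n := cj ((b ^ 2) ^ j) X₀ - X₀ with hXdef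
  have hcW : cj ((b ^ 2) ^ j) X₀ ∈ W := by rw [← pow_mul]; exact hst _ X₀ hX₀
  have hXW : X ∈ W := W.sub_mem hcW hX₀
  have hXE : EX H X := hD' X hXW hjX
  have hX0 : X ≠ 0 := by
    intro h0
    rw [hXdef, sub_eq_zero] at h0
    have h1 := hSI.irr (2 * j) (by omega) (Submodule.span ℚ {X₀})
      ((Submodule.span_singleton_le_iff_mem X₀ W).2 hX₀)
      (by rw [Ne, Submodule.span_singleton_eq_bot]; exact hX₀0)
      (fun Y hY => by
        obtain ⟨c, rfl⟩ := Submodule.mem_span_singleton.1 hY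
        rw [map_smul, pow_mul, h0]
        exact hY)
    have h2 := hSI.two
    rw [← h1] at h2
    have h3 := finrank_span_singleton (K := ℚ) hX₀0
    omega
  have hBX : B X X ≠ 0 := fun h => hX0 (hB0 X hXW h)
  have hsum : ℓ X + a * B X X = 0 := by
    have h1 : B (X + X₀) (X + X₀) = B X₀ X₀ := by
      rw [hXdef, sub_add_cancel]
      exact hBi j
    rw [map_add, map_add, LinearMap.add_apply, LinearMap.add_apply,
      ← (hB X hXW X₀ hX₀).2] at h1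
    rw [hl' X hXW]
    linear_combination a * h1
  obtain ⟨h, hh, hhX⟩ := hXE
  have hinv : stdM ℚ h⁻¹ = IsNilpotent.exp (-X) := by
    have h1 : stdM ℚ h⁻¹ * IsNilpotent.exp X = 1 := by rw [← hhX, stdM_inv_mul]
    calc stdM ℚ h⁻¹ = stdM ℚ h⁻¹ * (IsNilpotent.exp X * IsNilpotent.exp (-X)) := by
          rw [IsNilpotent.exp_mul_exp_neg_self (hSI.nil X hXW), mul_one]
      _ = IsNilpotent.exp (-X) := by rw [← mul_assoc, h1, one_mul]
  refine ⟨g * h * g⁻¹, H.mul_mem (H.mul_mem hg hh) (H.inv_mem hg), ?_, ?_⟩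
  · rw [stdM_mul, stdM_mul, hhX, hf X hXW, hsum]
  · have e1 : (g * h * g⁻¹)⁻¹ = g * h⁻¹ * g⁻¹ := by group
    rw [e1, stdM_mul, stdM_mul, hinv, hf (-X) (W.neg_mem hXW), map_neg, map_neg, map_neg,
      LinearMap.neg_apply, neg_neg]
    have h1 : -ℓ X + a * B X X = 2 * a * B X X := by linear_combination -hsum
    rw [h1]
    exact mul_ne_zero (mul_ne_zero two_ne_zero ha0) hBX

end Pool.Agent.VA
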